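import Pool.Agent.H.MP_127c5d_co.D

namespace Pool.Agent.Results.MP_127c5d_co.No
open Pool.Agent.H.MP_127c5d_co Set

/-- completely surrounded `k` times -/
def Surrounded {n : ℕ} (A : Set (E n)) (k : ℕ) : Prop := ∃ P, P.Finite ∧ Patch A P ∧ A ∈ P ∧
  ∀ j, 1 ≤ j → j ≤ k → ⋃₀ corona P A (j - 1) ⊆ interior (⋃₀ corona P A j)

/-- prototile of a monohedral tiling -/
def Tiles {n : ℕ} (A : Set (E n)) : Prop := ∃ P, P.Countable ∧ Patch A P ∧ ⋃₀ P = univ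

theorem result (n : ℕ) (hn : 2 ≤ n) (k : ℕ) :
    ∃ A : Set (E n), IsBody A ∧ Surrounded A k ∧ ¬Tiles A := by
  obtain ⟨n, rfl⟩ := Nat.exists_eq_add_of_le' hn
  obtain ⟨A, h1, ⟨P, p1, p2, p3, p4⟩, h3⟩ := main n k
  refine ⟨A, h1, ⟨P, p1, p2, p3, fun j a b => ?_⟩, fun ⟨P, _, a, b⟩ => h3 P a b⟩
  simpa only [Nat.sub_add_cancel a] using p4 (j - 1) (by omega)

end Pool.Agent.Results.MP_127c5d_co.No
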